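import Pool.Agent.H699R2.OMV.AddrAvg

/-!
# Online matrix-vector multiplication over `ZMod 2`: time times address-sensitivity

For every randomised algorithm, the number of probes weighted by one plus the number of coordinates
of the current vector to which the address of the probe is sensitive is at least
`n ^ 3 / (120 * log (|W| + 2))` on average.
-/

namespace Pool.Agent.Results.MP_0f1f76_lc.AddressSensitivity

open Pool.Agent.H699R2.OMV

theorem result {n : ℕ} {Ω A W : Type} [Fintype Ω] [Fintype W]
    (alg : Alg n Ω A W) (μ : Ω → ℝ) (hμ : IsProb μ)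
    (hs : alg.Solves μ ∨ alg.SolvesOnAverage μ) (G : Ω → List (Vec n) → (Mat n)ˣ)
    (hn : 24 ≤ n) :
    (n : ℝ) ^ 3 / (120 * Real.logb 2 (Fintype.card W + 2)) ≤ avg (alg.addrWork μ G) := by
  have hs' : alg.SolvesOnAverage μ := hs.elim (solvesOnAverage_of_solves alg μ hμ) id
  exact addr_bound alg μ hμ hs' G hn

end Pool.Agent.Results.MP_0f1f76_lc.AddressSensitivity
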