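import Pool.Agent.H699R2.OMV.Cols

/-!
# Online matrix-vector multiplication over `ZMod 2`: time times column-sensitivity

For every randomised algorithm, the number of probes weighted by the number of columns to which the
probed cells are sensitive is at least `n ^ 2 * (n - 3) / (10 * log (|W| + 2))` on average.
-/

namespace Pool.Agent.Results.MP_0f1f76_lc.ColumnSensitivity

open Pool.Agent.H699R2.OMV

theorem result {n : ℕ} {Ω A W : Type} [Fintype Ω] [Fintype W]
    (alg : Alg n Ω A W) (μ : Ω → ℝ) (hμ : IsProb μ)
    (hs : alg.Solves μ ∨ alg.SolvesOnAverage μ) (G : Ω → List (Vec n) → (Mat n)ˣ) :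
    (n : ℝ) ^ 2 * (n - 3) / (10 * Real.logb 2 (Fintype.card W + 2)) ≤
      avg (alg.colWork μ G) := by
  have hs' : alg.SolvesOnAverage μ := hs.elim (solvesOnAverage_of_solves alg μ hμ) id
  exact col_bound alg μ hμ hs' G (fun ω M h a => alg.colSens (G ω h) ω M h a) (by
    intro ω M h a i x hi
    unfold Alg.colSens at hi
    simp only [Finset.mem_filter, Finset.mem_univ, true_and, not_exists, ne_eq, not_not] at hi
    exact hi x)

end Pool.Agent.Results.MP_0f1f76_lc.ColumnSensitivity
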