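import Pool.Agent.H587R4.OL.Over

set_option autoImplicit false

/-! # Online matrix-vector multiplication on locally symmetric networks

A network reads a matrix `M` (rows and columns indexed by `V`) and `n` vectors over a nonzero
semiring `R` (for Q1: the field with two elements).  Its other gates compute arbitrary functions of
the multiset of their inputs, with values in an arbitrary set `K` and unbounded fan-in.  It is
online: the output gates of the `i`-th product `M v_i` do not depend on later vectors.  It is
symmetric on a block of five indices if every even permutation of the block (applied to the rows and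
the columns of `M` and to the coordinates of all the vectors and of all the products) extends to an
automorphism of the network.

The gates which depend on no vector (preprocessing of `M`) are free, and their number is arbitrary.
The gates of stage `i` are those which depend on the `i`-th vector and on no later one; they may
use everything computed from `M` and from the earlier vectors.

If a random network, all of whose members are online and symmetric on the same `r` disjoint blocks,
answers all `n` vectors correctly with probability at least `1 - ε` (for every `M` and all vectors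
with entries `0` and `1`), then the expectation of the sum over the stages of
`s_i (2 log_5 s_i + 1) ^ 2` is at least `(1 - 2 ε) n (r - 1) ^ 2`, where `s_i` is the number of
gates of stage `i`.  For `r = |V| / 5` and `n = |V|` this is `|V| ^ (3 - o(1))` online gates. -/

namespace Pool.Agent.Results.MP_0f1f76_lc.LocalSymmetry

open Pool.Agent.H526R2.LS Pool.Agent.H587R4.OL

open Classical in
theorem result (V K R : Type) [Fintype V] [Semiring R] [Nontrivial R] (n r : ℕ) (enc : R → K)
    (dec : K → R) (ι : Fin r × Fin 5 ↪ V) (Ω : Type) [Fintype Ω] (p : Ω → ℝ)
    (hp : ∀ ω, 0 ≤ p ω) (hp1 : ∑ ω, p ω = 1)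
    (Gt : Ω → Type) [∀ ω, Fintype (Gt ω)]
    (N : ∀ ω, Net ((V × V) ⊕ (Fin n × V)) K (Fin n × V) (Gt ω))
    (hsym : ∀ ω, SymOn (N ω) ι) (honl : ∀ ω, Online (N ω))
    (ε : ℝ) (hε : 2 * ε ≤ 1)
    (herr : ∀ (M : Matrix V V R) (v : Fin n → V → R), (∀ u w, M u w = 0 ∨ M u w = 1) →
      (∀ i w, v i w = 0 ∨ v i w = 1) →
      ∑ ω with ¬ AnswersOver (N ω) enc dec M v, p ω ≤ ε) :
    (1 - 2 * ε) * (n * ((r - 1 : ℕ) : ℝ) ^ 2) ≤
      ∑ ω, p ω * ∑ i : Fin n, (((stage (N ω) i).card : ℝ) *
        ((2 * Nat.log 5 (stage (N ω) i).card + 1 : ℕ) : ℝ) ^ 2) :=
  omv_lower_over enc dec ι p hp hp1 Gt N hsym honl ε hε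
    (fun M v hM hv => by convert herr M v hM hv)

end Pool.Agent.Results.MP_0f1f76_lc.LocalSymmetry
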