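import Pool.Agent.H699R2.OMV.TM

/-!
# Online matrix-vector multiplication over `ZMod 2` on multitape Turing machines

Whatever the preprocessing, a machine with `K` tapes needs on average at least
`n ^ 3 / (1000 * K * log (|Γ| + 1))` steps.
-/

namespace Pool.Agent.Results.MP_0f1f76_lc.TuringMachines

open Pool.Agent.H699R2.OMV

theorem result {n K : ℕ} {Ω Γ Q : Type} [Fintype Ω] [Fintype Γ] [Fintype Q]
    (alg : TMAlg n K Ω Γ Q) (μ : Ω → ℝ) (hμ : IsProb μ)
    (hs : alg.Solves μ ∨ alg.SolvesOnAverage μ) (hK : 1 ≤ K) (hn : 24 ≤ n)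
    (hbig : 24 * (Real.logb 2 (Fintype.card Q) + K * Real.logb 2 (Fintype.card Γ + 1)) ≤
      (n : ℝ) ^ 2) :
    (n : ℝ) ^ 3 / (1000 * (K * Real.logb 2 (Fintype.card Γ + 1))) ≤ avg (alg.expTime μ) := by
  have hs' : alg.SolvesOnAverage μ := hs.elim (tm_solvesOnAverage_of_solves alg μ hμ) id
  exact tm_bound alg μ hμ hs' hK hn hbig

end Pool.Agent.Results.MP_0f1f76_lc.TuringMachines
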